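import Pool.Agent.H176.DT.Stm

/-! # Triangular presentations of finite field extensions (project DT) -/

set_option autoImplicit false

universe u

namespace Pool.Agent.H624.DT

open Polynomial

section res

variable {k κ : Type u} [Field k] [Field κ] [Algebra k κ] {r : ℕ} (b : Fin r → κ)

/-- the fields generated by the first `j` elements -/
def Mf (j : ℕ) : IntermediateField k κ :=
  IntermediateField.adjoin k {z | ∃ l : Fin r, (l : ℕ) < j ∧ b l = z}

/-- the degrees -/
noncomputable def fe (j : Fin r) : ℕ := (minpoly (Mf (k := k) b j) (b j)).natDegree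

theorem b_mem {j : ℕ} {l : Fin r} (h : (l : ℕ) < j) : b l ∈ Mf (k := k) b j :=
  IntermediateField.subset_adjoin k _ ⟨l, h, rfl⟩

/-- the monomials -/
def em (ff : Fin r → ℕ) (ν : (i : Fin r) → Fin (ff i)) : κ := ∏ i, b i ^ (ν i : ℕ)

/-- the exponents which vanish from `j` on -/
def Ns (ff : Fin r → ℕ) (j : ℕ) : Set ((i : Fin r) → Fin (ff i)) :=
  {ν | ∀ l : Fin r, j ≤ (l : ℕ) → (ν l : ℕ) = 0}

variable {b}

theorem em_mem {ff : Fin r → ℕ} {j : ℕ} {ν : (i : Fin r) → Fin (ff i)} (h : ν ∈ Ns ff j) :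
    em b ff ν ∈ Mf (k := k) b j := by
  refine prod_mem fun i _ => ?_
  by_cases hi : (i : ℕ) < j
  · exact pow_mem (b_mem b hi) _
  · rw [h i (not_lt.1 hi), pow_zero]
    exact one_mem _

theorem em_update {ff : Fin r → ℕ} (j : Fin r) (ν : (i : Fin r) → Fin (ff i)) (m z : Fin (ff j))
    (hz : (z : ℕ) = 0) :
    em b ff (Function.update ν j m) = em b ff (Function.update ν j z) * b j ^ (m : ℕ) := by
  unfold em
  rw [← Finset.mul_prod_erase _ _ (Finset.mem_univ j), ← Finset.mul_prod_erase _ _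
    (Finset.mem_univ j), Function.update_self, Function.update_self, hz, pow_zero, one_mul, mul_comm]
  congr 1
  refine Finset.prod_congr rfl fun i hi => ?_
  have h : i ≠ j := Finset.ne_of_mem_erase hi
  rw [Function.update_of_ne h, Function.update_of_ne h]

theorem int_over (hb : ∀ j, IsAlgebraic k (b j)) (j : Fin r) :
    IsIntegral (Mf (k := k) b j) (b j) :=
  (hb j).isIntegral.tower_top

theorem fe_pos (hb : ∀ j, IsAlgebraic k (b j)) (j : Fin r) : 0 < fe (k := k) b j :=
  minpoly.natDegree_pos (int_over hb j)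

theorem li_step (hb : ∀ j, IsAlgebraic k (b j)) (j : Fin r)
    (ih : LinearIndependent k (fun ν : Ns (fe (k := k) b) j => em b (fe (k := k) b) ν.1)) :
    LinearIndependent k (fun ν : Ns (fe (k := k) b) ((j : ℕ) + 1) => em b (fe (k := k) b) ν.1) := by
  classical
  have h1 : LinearIndependent k (fun ν : Ns (fe (k := k) b) j =>
      (⟨em b (fe (k := k) b) ν.1, em_mem ν.2⟩ : Mf (k := k) b j)) :=
    LinearIndependent.of_comp (Mf (k := k) b j).val.toLinearMap ih
  have h2 : LinearIndependent (Mf (k := k) b j)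
      (fun m : Fin (fe (k := k) b j) => b j ^ (m : ℕ)) := linearIndependent_pow (b j)
  have h3 := linearIndependent_smul h1 h2
  have hz := fe_pos hb j
  have h4 := h3.comp (fun ν : Ns (fe (k := k) b) ((j : ℕ) + 1) =>
    ((⟨Function.update ν.1 j ⟨0, hz⟩, by
      intro l hl
      by_cases hlj : l = j
      · subst hlj
        rw [Function.update_self]
      · rw [Function.update_of_ne hlj]
        apply ν.2 l
        have : (l : ℕ) ≠ j := fun h => hlj (Fin.ext h)
        omega⟩ : Ns (fe (k := k) b) j), ν.1 j)) (by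
      intro ν μ h
      rw [Prod.mk.injEq] at h
      obtain ⟨e1, e2⟩ := h
      have e1' := congrArg Subtype.val e1
      simp only at e1'
      apply Subtype.ext
      funext i
      by_cases hi : i = j
      · subst hi
        exact e2
      · have := congrFun e1' i
        rwa [Function.update_of_ne hi, Function.update_of_ne hi] at this)
  have h5 : ∀ ν : Ns (fe (k := k) b) ((j : ℕ) + 1),
      em b (fe (k := k) b) (Function.update ν.1 j ⟨0, hz⟩) * b j ^ ((ν.1 j : ℕ)) =
        em b (fe (k := k) b) ν.1 := by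
    intro ν
    rw [← em_update j ν.1 (ν.1 j) ⟨0, hz⟩ rfl, Function.update_eq_self]
  rw [← funext h5]
  exact h4

theorem span_step (hb : ∀ j, IsAlgebraic k (b j)) (j : Fin r)
    (ih : ∀ w ∈ Mf (k := k) b j, w ∈ Submodule.span k
      (em b (fe (k := k) b) '' Ns (fe (k := k) b) j)) :
    ∀ w ∈ Mf (k := k) b ((j : ℕ) + 1), w ∈ Submodule.span k
      (em b (fe (k := k) b) '' Ns (fe (k := k) b) ((j : ℕ) + 1)) := by
  classical
  intro w hw
  have hz := fe_pos hb j
  have key : ∀ (m : Fin (fe (k := k) b j)) (a : κ), a ∈ Mf (k := k) b j →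
      a * b j ^ (m : ℕ) ∈ Submodule.span k
        (em b (fe (k := k) b) '' Ns (fe (k := k) b) ((j : ℕ) + 1)) := by
    intro m a ha
    have h1 := ih a ha
    refine Submodule.span_induction ?_ ?_ ?_ ?_ h1
    · rintro _ ⟨ν, hν, rfl⟩
      have h2 : em b (fe (k := k) b) ν * b j ^ (m : ℕ) =
          em b (fe (k := k) b) (Function.update ν j m) := by
        rw [em_update j ν m (ν j) (hν j le_rfl), Function.update_eq_self]
      rw [h2]
      refine Submodule.subset_span ⟨_, ?_, rfl⟩
      intro l hl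
      have hlj : l ≠ j := by
        rintro rfl
        omega
      rw [Function.update_of_ne hlj]
      exact hν l (by omega)
    · rw [zero_mul]
      exact Submodule.zero_mem _
    · intro x y _ _ hx hy
      rw [add_mul]
      exact Submodule.add_mem _ hx hy
    · intro c x _ hx
      rw [smul_mul_assoc]
      exact Submodule.smul_mem _ c hx
  have hle : Mf (k := k) b ((j : ℕ) + 1) ≤ IntermediateField.restrictScalars k
      (IntermediateField.adjoin (Mf (k := k) b j) {b j}) := by
    unfold Mf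
    rw [IntermediateField.adjoin_le_iff]
    rintro z ⟨l, hl, rfl⟩
    show b l ∈ IntermediateField.restrictScalars k (IntermediateField.adjoin _ {b j})
    rw [IntermediateField.mem_restrictScalars]
    rcases Nat.lt_succ_iff_lt_or_eq.1 hl with h | h
    · exact IntermediateField.algebraMap_mem (IntermediateField.adjoin (Mf (k := k) b j) {b j})
        (⟨b l, b_mem b h⟩ : Mf (k := k) b j)
    · rw [show l = j from Fin.ext h]
      exact IntermediateField.subset_adjoin _ _ (Set.mem_singleton _)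
  have h1 := hle hw
  rw [IntermediateField.mem_restrictScalars, ← IntermediateField.mem_toSubalgebra,
    IntermediateField.adjoin_simple_toSubalgebra_of_isAlgebraic (int_over hb j).isAlgebraic,
    Algebra.adjoin_singleton_eq_range_aeval] at h1
  obtain ⟨f, hf⟩ := h1
  have h2 := (int_over (k := k) hb j).mem_span_pow (y := w) ⟨f, hf.symm⟩
  obtain ⟨c, hc⟩ := Submodule.mem_span_range_iff_exists_fun _ |>.1 h2
  rw [← hc]
  refine Submodule.sum_mem _ fun m _ => ?_
  exact key m _ (c m).2

theorem em_ne_zero {ff : Fin r → ℕ} {ν : (i : Fin r) → Fin (ff i)} (h : ν ∈ Ns ff 0) :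
    em b ff ν = 1 :=
  Finset.prod_eq_one fun i _ => by rw [h i (Nat.zero_le _), pow_zero]

theorem li_zero : LinearIndependent k (fun ν : Ns (fe (k := k) b) 0 => em b (fe (k := k) b) ν.1) := by
  have h1 : ∀ ν μ : Ns (fe (k := k) b) 0, ν = μ := by
    intro ν μ
    apply Subtype.ext
    funext i
    apply Fin.ext
    rw [ν.2 i (Nat.zero_le _), μ.2 i (Nat.zero_le _)]
  have hs : Subsingleton (Ns (fe (k := k) b) 0) := ⟨h1⟩
  rcases isEmpty_or_nonempty (Ns (fe (k := k) b) 0) with h | ⟨⟨ν⟩⟩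
  · exact linearIndependent_empty_type
  · have hu : Unique (Ns (fe (k := k) b) 0) := uniqueOfSubsingleton ν
    refine linearIndependent_unique_iff.2 ?_
    rw [em_ne_zero (Subtype.prop _)]
    exact one_ne_zero

theorem span_zero (hb : ∀ j, IsAlgebraic k (b j)) :
    ∀ w ∈ Mf (k := k) b 0, w ∈ Submodule.span k
      (em b (fe (k := k) b) '' Ns (fe (k := k) b) 0) := by
  intro w hw
  have h1 : Mf (k := k) b 0 = ⊥ := by
    unfold Mf
    rw [IntermediateField.adjoin_eq_bot_iff]
    rintro z ⟨l, hl, _⟩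
    exact absurd hl (Nat.not_lt_zero _)
  rw [h1, IntermediateField.mem_bot] at hw
  obtain ⟨c, rfl⟩ := hw
  have h2 : em b (fe (k := k) b) (fun i => ⟨0, fe_pos hb i⟩) = 1 := by
    unfold em
    exact Finset.prod_eq_one fun i _ => pow_zero _
  rw [Algebra.algebraMap_eq_smul_one, ← h2]
  refine Submodule.smul_mem _ c (Submodule.subset_span ⟨_, ?_, rfl⟩)
  intro l _
  rfl

theorem li_all (hb : ∀ j, IsAlgebraic k (b j)) (j : ℕ) (hj : j ≤ r) :
    LinearIndependent k (fun ν : Ns (fe (k := k) b) j => em b (fe (k := k) b) ν.1) := by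
  induction j with
  | zero => exact li_zero
  | succ j ih => exact li_step hb ⟨j, hj⟩ (ih (by omega))

theorem span_all (hb : ∀ j, IsAlgebraic k (b j)) (j : ℕ) (hj : j ≤ r) :
    ∀ w ∈ Mf (k := k) b j, w ∈ Submodule.span k
      (em b (fe (k := k) b) '' Ns (fe (k := k) b) j) := by
  induction j with
  | zero => exact span_zero hb
  | succ j ih => exact span_step hb ⟨j, hj⟩ (ih (by omega))

theorem co_of_span {ff : Fin r → ℕ} {N : Set ((i : Fin r) → Fin (ff i))} {w : κ}
    (h : w ∈ Submodule.span k (em b ff '' N)) :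
    ∃ c : ((i : Fin r) → Fin (ff i)) → k, (∀ ν, c ν ≠ 0 → ν ∈ N) ∧
      w = ∑ ν, c ν • ∏ i, b i ^ (ν i : ℕ) := by
  classical
  refine Submodule.span_induction (p := fun w _ => ∃ c : ((i : Fin r) → Fin (ff i)) → k,
    (∀ ν, c ν ≠ 0 → ν ∈ N) ∧ w = ∑ ν, c ν • ∏ i, b i ^ (ν i : ℕ)) ?_ ?_ ?_ ?_ h
  · rintro _ ⟨ν, hν, rfl⟩
    refine ⟨fun μ => if μ = ν then 1 else 0, ?_, ?_⟩
    · intro μ hμ
      by_cases h : μ = ν
      · rw [h]; exact hν
      · exact absurd (if_neg h) hμ
    · simp only [ite_smul, one_smul, zero_smul, Finset.sum_ite_eq', Finset.mem_univ, if_true]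
      rfl
  · exact ⟨fun _ => 0, fun ν h => absurd rfl h, by simp⟩
  · rintro x y _ _ ⟨c, h1, h2⟩ ⟨d, h3, h4⟩
    refine ⟨fun ν => c ν + d ν, ?_, ?_⟩
    · intro ν hν
      by_cases h : c ν = 0
      · refine h3 ν fun h5 => hν ?_
        show c ν + d ν = 0
        rw [h, h5, add_zero]
      · exact h1 ν h
    · rw [h2, h4, ← Finset.sum_add_distrib]
      exact Finset.sum_congr rfl fun ν _ => (add_smul _ _ _).symm
  · rintro a x _ ⟨c, h1, h2⟩
    refine ⟨fun ν => a * c ν, ?_, ?_⟩
    · intro ν hν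
      exact h1 ν fun h => hν (by show a * c ν = 0; rw [h, mul_zero])
    · rw [h2, Finset.smul_sum]
      exact Finset.sum_congr rfl fun ν _ => smul_smul _ _ _

theorem co_all (hb : ∀ j, IsAlgebraic k (b j)) (j : ℕ) {w : κ} (hw : w ∈ Mf (k := k) b j) :
    ∃ c : ((i : Fin r) → Fin (fe (k := k) b i)) → k,
      (∀ ν, c ν ≠ 0 → ∀ l : Fin r, j ≤ (l : ℕ) → (ν l : ℕ) = 0) ∧
      w = ∑ ν, c ν • ∏ i, b i ^ (ν i : ℕ) := by
  rcases le_or_gt j r with h | h
  · obtain ⟨c, h1, h2⟩ := co_of_span (span_all hb j h w hw)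
    exact ⟨c, h1, h2⟩
  · have h0 : Mf (k := k) b j ≤ Mf (k := k) b r := by
      unfold Mf
      refine IntermediateField.adjoin.mono _ _ _ ?_
      rintro z ⟨l, _, h2⟩
      exact ⟨l, l.2, h2⟩
    obtain ⟨c, h1, h2⟩ := co_of_span (span_all hb r le_rfl w (h0 hw))
    refine ⟨c, fun ν _ l hl => ?_, h2⟩
    have := l.2
    omega

theorem rel (hb : ∀ j, IsAlgebraic k (b j)) (j : Fin r) :
    ∃ h : Fin (fe (k := k) b j) → MvPolynomial (Fin r) k,
        (∀ l, h l ∈ MvPolynomial.supported k {i | i < j}) ∧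
        b j ^ fe (k := k) b j + ∑ l, MvPolynomial.aeval b (h l) * b j ^ (l : ℕ) = 0 := by
  have h1 : ∀ l : Fin (fe (k := k) b j), ∃ h : MvPolynomial (Fin r) k,
      h ∈ MvPolynomial.supported k {i | i < j} ∧
      MvPolynomial.aeval b h = (((minpoly (Mf (k := k) b j) (b j)).coeff l : Mf (k := k) b j) : κ) := by
    intro l
    obtain ⟨c, h2, h3⟩ := co_all hb j ((minpoly (Mf (k := k) b j) (b j)).coeff l).2
    refine ⟨∑ ν, c ν • ∏ i, MvPolynomial.X i ^ (ν i : ℕ), ?_, ?_⟩
    · refine Subalgebra.sum_mem _ fun ν _ => ?_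
      by_cases h : c ν = 0
      · rw [h, zero_smul]
        exact Subalgebra.zero_mem _
      · refine Subalgebra.smul_mem _ (Subalgebra.prod_mem _ fun i _ => ?_) _
        by_cases hi : i < j
        · have hX : (MvPolynomial.X i : MvPolynomial (Fin r) k) ∈
              MvPolynomial.supported k {i | i < j} := by
            rw [MvPolynomial.X_mem_supported]
            exact hi
          exact Subalgebra.pow_mem _ hX _
        · rw [h2 ν h i (not_lt.1 hi), pow_zero]
          exact Subalgebra.one_mem _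
    · rw [h3, map_sum]
      refine Finset.sum_congr rfl fun ν _ => ?_
      rw [map_smul, map_prod]
      congr 1
      refine Finset.prod_congr rfl fun i _ => ?_
      rw [map_pow, MvPolynomial.aeval_X]
  choose h h2 h3 using h1
  refine ⟨h, h2, ?_⟩
  have h4 := minpoly.aeval (Mf (k := k) b j) (b j)
  rw [Polynomial.aeval_eq_sum_range, Finset.sum_range_succ, add_comm,
    Polynomial.Monic.coeff_natDegree (minpoly.monic (int_over hb j)), one_smul] at h4
  rw [← Fin.sum_univ_eq_sum_range (fun i => (minpoly (Mf (k := k) b j) (b j)).coeff i • b j ^ i)]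
    at h4
  refine Eq.trans ?_ h4
  congr 1
  refine Finset.sum_congr rfl fun l _ => ?_
  rw [h3]
  rfl

theorem li_full (hb : ∀ j, IsAlgebraic k (b j)) :
    LinearIndependent k (fun ν : (j : Fin r) → Fin (fe (k := k) b j) =>
      ∏ j, b j ^ (ν j : ℕ)) := by
  have h1 := li_all hb r le_rfl
  exact h1.comp (fun ν : (j : Fin r) → Fin (fe (k := k) b j) =>
    (⟨ν, fun l hl => absurd l.2 (not_lt.2 hl)⟩ : Ns (fe (k := k) b) r)) (by
      intro ν μ h
      exact congrArg Subtype.val h)

theorem res_aux (hb : ∀ j, IsAlgebraic k (b j)) :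
    ∃ ff : Fin r → ℕ, (∀ j, 0 < ff j) ∧
      (∀ j, ∃ h : Fin (ff j) → MvPolynomial (Fin r) k,
        (∀ l, h l ∈ MvPolynomial.supported k {i | i < j}) ∧
        b j ^ ff j + ∑ l, MvPolynomial.aeval b (h l) * b j ^ (l : ℕ) = 0) ∧
      LinearIndependent k (fun ν : (j : Fin r) → Fin (ff j) => ∏ j, b j ^ (ν j : ℕ)) ∧
      ∀ j : ℕ, ∀ w ∈ IntermediateField.adjoin k {z | ∃ l : Fin r, (l : ℕ) < j ∧ b l = z},
        ∃ c : ((i : Fin r) → Fin (ff i)) → k,
          (∀ ν, c ν ≠ 0 → ∀ l : Fin r, j ≤ (l : ℕ) → (ν l : ℕ) = 0) ∧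
          w = ∑ ν, c ν • ∏ i, b i ^ (ν i : ℕ) :=
  ⟨fe (k := k) b, fe_pos hb, rel hb, li_full hb, fun j _ hw => co_all hb j hw⟩

end res

/-- The statement `S_res`. -/
theorem res : Pool.Agent.H176.DT.S_res.{u} := fun _ _ hb => res_aux hb

end Pool.Agent.H624.DT
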