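import Pool.Agent.H176.DT.Stm

/-! # The unramified step (project DT) -/

set_option autoImplicit false
set_option linter.unusedVariables false
set_option linter.unusedSectionVars false

universe u

namespace Pool.Agent.H624.DT

open Pool.Agent.W418.LU2 Pool.Agent.H176.DT IsLocalRing Polynomial

section general

/-- nonunits of the torus ring -/
lemma nu_iff {E K : Type u} [Field E] [Field K] [Algebra E K] {Θ : Type} {y : Θ → K}
    {V : ValuationSubring K} {z : FF E Θ} {w : K} (hz : Pr (ph (E := E) y) z w) (hw : w ∈ V) :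
    NU (AT E y V) z ↔ V.valuation w < 1 := by
  have hle : V.valuation w ≤ 1 := (V.valuation_le_one_iff _).2 hw
  unfold NU
  rw [← not_iff_not, not_not, not_lt]
  constructor
  · rintro ⟨h0, w', hw', h'⟩
    have h1 : w * w' = 1 := by
      have h2 := hz.mul h'
      rw [mul_inv_cancel₀ h0] at h2
      exact h2.unique Pr.one
    have h2 : V.valuation w * V.valuation w' = 1 := by rw [← map_mul, h1, map_one]
    have h3 : V.valuation w' ≤ 1 := (V.valuation_le_one_iff _).2 hw'
    calc (1 : V.ValueGroup) = V.valuation w * V.valuation w' := h2.symm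
      _ ≤ V.valuation w * 1 := mul_le_mul_right h3 _
      _ = V.valuation w := mul_one _
  · intro h1
    have h2 : V.valuation w = 1 := le_antisymm hle h1
    have h3 : w ≠ 0 := by
      rintro rfl
      rw [map_zero] at h2
      exact zero_ne_one h2
    refine ⟨hz.ne_zero h3, w⁻¹, ?_, hz.inv h3⟩
    rw [← V.valuation_le_one_iff, map_inv₀, h2, inv_one]

/-- the value of a polynomial in the variable -/
lemma pr_eval {E K : Type u} [Field E] [Field K] [Algebra E K] (η : K) (q : E[X]) :
    Pr (ph (E := E) (fun _ : Unit => η)) (eval (Zc E ()) (q.map (emb E Unit))) (aeval η q) := by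
  induction q using Polynomial.induction_on' with
  | add p q hp hq =>
    rw [Polynomial.map_add, eval_add, map_add]
    exact hp.add hq
  | monomial n a =>
    rw [map_monomial, eval_monomial, aeval_monomial]
    exact (Pr_emb _ a).mul ((Pr_Z _ ()).pow n)

lemma full_mem_max {F : Type u} [Field F] {A P : Subring F} {ι : Type} [Fintype ι] {x : ι → F}
    (h : Full A P x) [IsLocalRing P] (y : P) : y ∈ maximalIdeal P ↔ NU A (y : F) := by
  rw [mem_maximalIdeal, mem_nonunits_iff]
  unfold NU
  rw [not_iff_not]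
  constructor
  · intro hy
    obtain ⟨z, hz⟩ := isUnit_iff_exists_inv.1 hy
    have h1 : (y : F) * z = 1 := congrArg Subtype.val hz
    refine ⟨left_ne_zero_of_mul_eq_one h1, ?_⟩
    rw [← eq_inv_of_mul_eq_one_right h1]
    exact h.PA z.2
  · rintro ⟨h0, h1⟩
    refine isUnit_iff_exists_inv.2 ⟨⟨_, h.inv _ y.2 h0 h1⟩, Subtype.ext ?_⟩
    exact mul_inv_cancel₀ h0

lemma regP_restr {F : Type u} [Field F] {A P : Subring F} {ι κ : Type} [Fintype ι] [Fintype κ]
    {x : ι → F} (h : RegP A P x) (f : κ → ι) (hf : Function.Injective f) :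
    RegP A P (fun k => x (f k)) := by
  classical
  refine ⟨h.PA, fun k => h.ne _, fun k => h.mem _, h.reg, h.inv, ?_⟩
  have hreg := h.reg
  intro c hc hs k
  have h1 : ∀ i ∉ Set.range f, Function.extend f c 0 i = 0 := by
    intro i hi
    exact Function.extend_apply' _ _ _ hi
  have h2 := h.ind (Function.extend f c 0) (by
    intro i hi
    by_cases hr : i ∈ Set.range f
    · obtain ⟨k, rfl⟩ := hr
      rw [hf.extend_apply]
      exact hc k hi
    · exact h1 i hr) (by
    rw [← Fintype.sum_of_injective f hf (fun k => c k * (⟨x (f k), h.mem _⟩ : P))]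
    · exact hs
    · intro i hi
      rw [h1 i hi, zero_mul]
    · intro k
      rw [hf.extend_apply]) (f k)
  rwa [hf.extend_apply] at h2

lemma ev_mem {F : Type u} [Field F] {P : Subring F} {t : F} (ht : t ∈ P) {p : F[X]}
    (hp : ∀ i, p.coeff i ∈ P) : eval t p ∈ P := by
  rw [eval_eq_sum_range]
  exact P.sum_mem fun i _ => P.mul_mem (hp i) (P.pow_mem ht i)

lemma aev_mem {E F : Type u} [Field E] [Field F] [Algebra E F] {P : Subring F} {t : F} (ht : t ∈ P)
    {p : E[X]} (hp : ∀ i, algebraMap E F (p.coeff i) ∈ P) : aeval t p ∈ P := by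
  rw [← eval_map_algebraMap]
  exact ev_mem ht fun i => by rw [coeff_map]; exact hp i

lemma ev_mem_ideal {F : Type u} [Field F] {P : Subring F} (I : Ideal P) (t : P) {p : F[X]}
    (hp : ∀ i, ∃ h : p.coeff i ∈ P, (⟨p.coeff i, h⟩ : P) ∈ I) (D : P) (hD : (D : F) = eval (t : F) p) :
    D ∈ I := by
  have h1 : D = ∑ i ∈ Finset.range (p.natDegree + 1), (⟨p.coeff i, (hp i).1⟩ : P) * t ^ i := by
    apply Subtype.ext
    rw [hD, eval_eq_sum_range, AddSubmonoidClass.coe_finsetSum]
    rfl
  rw [h1]
  exact Ideal.sum_mem _ fun i _ => Ideal.mul_mem_right _ _ (hp i).2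

lemma lift_poly {E F : Type u} [Field E] [Field F] (f : E →+* F) (P : Subring F) (q : E[X])
    (hq : ∀ i, f (q.coeff i) ∈ P) : ∃ p : P[X], p.map P.subtype = q.map f := by
  refine ⟨(q.map f).toSubring P ?_, map_toSubring _ _ _⟩
  intro a ha
  obtain ⟨n, -, rfl⟩ := mem_coeffs_iff.1 ha
  rw [coeff_map]
  exact hq n

lemma int_mem {E F : Type u} [Field E] [Field F] [Algebra E F] (V : ValuationSubring F) (η : F)
    (μ : E[X]) (h1 : μ.Monic) (h2 : ∀ i, algebraMap E F (μ.coeff i) ∈ V) (h3 : aeval η μ = 0) :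
    η ∈ V := by
  obtain ⟨p, hp⟩ := lift_poly (algebraMap E F) V.toSubring μ h2
  have h4 : p.Monic := by
    rw [(Subring.subtype_injective V.toSubring).monic_map_iff, hp]
    exact h1.map _
  have h5 : IsIntegral V η := by
    refine ⟨p, h4, ?_⟩
    have h6 : eval₂ V.toSubring.subtype η p = 0 := by
      rw [← eval_map, hp, eval_map_algebraMap, h3]
    exact h6
  obtain ⟨y, hy⟩ := IsIntegrallyClosed.isIntegral_iff.1 h5
  rw [← hy]
  exact y.2

/-- elements with a nonzero constant term -/
lemma cof_aux {E F : Type u} [Field E] [Field F] [Algebra E F] (V : ValuationSubring F) (z : F)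
    (hz : z ≠ 0) (n : ℕ) : ∀ q : E[X], q ≠ 0 → q.natDegree ≤ n →
      (∀ i, algebraMap E F (q.coeff i) ∈ V) → aeval z q = 0 →
      ∃ q : E[X], (∀ i, algebraMap E F (q.coeff i) ∈ V) ∧ q.coeff 0 ≠ 0 ∧ aeval z q = 0 := by
  induction n with
  | zero =>
    intro q h0 h1 h2 h3
    refine ⟨q, h2, fun h4 => h0 ?_, h3⟩
    rw [eq_C_of_natDegree_le_zero h1, h4, C_0]
  | succ n ih =>
    intro q h0 h1 h2 h3
    by_cases h4 : q.coeff 0 = 0
    · have h5 := divX_mul_X_add q
      rw [h4, C_0, add_zero] at h5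
      refine ih q.divX (fun h => h0 ?_) ?_ (fun i => ?_) ?_
      · rw [← h5, h, zero_mul]
      · rw [natDegree_divX_eq_natDegree_tsub_one]
        omega
      · rw [coeff_divX]
        exact h2 _
      · rw [← h5, map_mul, aeval_X] at h3
        exact (mul_eq_zero.1 h3).resolve_right hz
    · exact ⟨q, h2, h4, h3⟩

lemma cofac {E F : Type u} [Field E] [Field F] [Algebra E F] (V : ValuationSubring F) (η : F)
    (μ : E[X]) (h1 : μ.Monic) (h2 : ∀ i, algebraMap E F (μ.coeff i) ∈ V) (h3 : aeval η μ = 0)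
    (f : E[X]) (hf : ∀ i, algebraMap E F (f.coeff i) ∈ V) (h0 : aeval η f ≠ 0) :
    ∃ q : E[X], (∀ i, algebraMap E F (q.coeff i) ∈ V) ∧ q.coeff 0 ≠ 0 ∧
      aeval (aeval η f) q = 0 := by
  let W := V.comap (algebraMap E F)
  let f0 : W.toSubring →+* F := (algebraMap E F).comp W.toSubring.subtype
  let _ : Algebra W.toSubring F := f0.toAlgebra
  have h4 : IsIntegral W.toSubring η := by
    obtain ⟨p, hp⟩ := lift_poly (RingHom.id E) W.toSubring μ h2
    rw [Polynomial.map_id] at hp
    refine ⟨p, ?_, ?_⟩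
    · rw [(Subring.subtype_injective W.toSubring).monic_map_iff, hp]
      exact h1
    · have h6 : eval₂ f0 η p = 0 := by
        rw [← eval₂_map, hp]
        exact h3
      exact h6
  have h5 : IsIntegral W.toSubring (aeval η f) := by
    rw [aeval_eq_sum_range]
    refine IsIntegral.sum _ fun i _ => ?_
    rw [Algebra.smul_def]
    refine IsIntegral.mul ?_ (h4.pow i)
    exact isIntegral_algebraMap (R := W.toSubring) (x := ⟨f.coeff i, hf i⟩)
  obtain ⟨p, hp1, hp2⟩ := h5
  refine cof_aux V _ h0 _ (p.map W.toSubring.subtype) (hp1.map _).ne_zero le_rfl (fun i => ?_) ?_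
  · rw [coeff_map]
    exact (p.coeff i).2
  · rw [aeval_def, eval₂_map]
    exact hp2

lemma dens {E F : Type u} [Field E] [Field F] [Algebra E F] (V : ValuationSubring F) (f : E[X]) :
    ∃ d : E, d ≠ 0 ∧ ∀ i, algebraMap E F (d * f.coeff i) ∈ V := by
  obtain ⟨b, hb⟩ := IsLocalization.exist_integer_multiples_of_finset
    (nonZeroDivisors (V.comap (algebraMap E F))) f.coeffs
  refine ⟨((b : V.comap (algebraMap E F)) : E), ?_, fun i => ?_⟩
  · intro h
    exact nonZeroDivisors.coe_ne_zero b (Subtype.ext h)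
  · by_cases h : f.coeff i = 0
    · rw [h, mul_zero, map_zero]
      exact V.zero_mem
    · obtain ⟨y, hy⟩ := hb _ (coeff_mem_coeffs h)
      have h2 : ((b : V.comap (algebraMap E F)) : E) * f.coeff i = y := hy.symm
      rw [h2]
      exact y.2

end general

section stage

variable {E F : Type u} [Field E] [Field F] [Algebra E F] (V : ValuationSubring F)

theorem stage (h4 : S_ext.{u}) (h5 : S_map.{u}) (h6 : S_adj.{u}) (h7 : S_cut.{u}) (h8 : S_alg.{u})
    (B : Subring E) (hB : B ≤ (V.comap (algebraMap E F)).toSubring)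
    (hBE : ∀ a : E, ∃ b ∈ B, b ≠ 0 ∧ a * b ∈ B)
    (η : F) (hη : η ∈ V) (hgen : ∀ z : F, ∃ f : E[X], aeval η f = z) (μ g h : E[X])
    (hu : Unr V η μ g h) {s : ℕ} (x : Fin s → E)
    (hreg : RegP (V.comap (algebraMap E F)).toSubring (lo (V.comap (algebraMap E F)).toSubring B) x)
    (hx : ∀ i, (x i)⁻¹ ∉ (V.comap (algebraMap E F)).toSubring)
    (c1 : ∀ i, μ.coeff i ∈ lo (V.comap (algebraMap E F)).toSubring B)
    (c2 : ∀ i, g.coeff i ∈ lo (V.comap (algebraMap E F)).toSubring B)
    (c3 : ∀ i, h.coeff i ∈ lo (V.comap (algebraMap E F)).toSubring B) :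
    RegP V.toSubring (lo V.toSubring (Subring.closure
      ((B.map (algebraMap E F) : Set F) ∪ Set.range (fun _ : Unit => η))))
        (fun i => algebraMap E F (x i)) := by
  obtain ⟨hμ, hg, hμV, hgV, hhV, hdV, hημ, hηg, hηh, hmin⟩ := hu
  obtain ⟨m, z, hfull⟩ := h4 hreg hx
  have hF := h5 (emb E Unit) (A := AT E (fun _ : Unit => η) V) (fun e => emb_mem V e) hfull
  have hSA : B.map (emb E Unit) ≤ AT E (fun _ : Unit => η) V := by
    rintro _ ⟨e, he, rfl⟩
    exact (emb_mem V e).2 (hB he)
  have htA : Zc E () ∈ AT E (fun _ : Unit => η) V := (Pr_Z (fun _ : Unit => η) ()).mem_AA.2 hη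
  have htr := h8 (AT E (fun _ : Unit => η) V) B (∅ : Set Unit) () (Set.notMem_empty _)
  rw [Set.image_empty, Set.union_empty, Subring.closure_eq] at htr
  have hemb : ∀ e ∈ lo (V.comap (algebraMap E F)).toSubring B,
      emb E Unit e ∈ lo (AT E (fun _ : Unit => η) V) (B.map (emb E Unit)) := by
    intro e he
    rw [lo_map (emb E Unit) (A' := (V.comap (algebraMap E F)).toSubring) (fun e => emb_mem V e)]
    exact ⟨e, he, rfl⟩
  have hback : ∀ c ∈ lo (AT E (fun _ : Unit => η) V) (B.map (emb E Unit)),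
      ∃ e ∈ lo (V.comap (algebraMap E F)).toSubring B, emb E Unit e = c := by
    intro c hc
    rw [lo_map (emb E Unit) (A' := (V.comap (algebraMap E F)).toSubring) (fun e => emb_mem V e)] at hc
    exact hc
  obtain ⟨gP, hgP⟩ := lift_poly (emb E Unit) (lo (AT E (fun _ : Unit => η) V) (B.map (emb E Unit)))
    g (fun i => hemb _ (c2 i))
  have hgPev : eval₂ (lo (AT E (fun _ : Unit => η) V) (B.map (emb E Unit))).subtype (Zc E ()) gP =
      eval (Zc E ()) (g.map (emb E Unit)) := by
    rw [← eval_map, hgP]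
  have hR := h6 (loc_AA) hSA hF (Zc E ()) htA htr gP
    ((Subring.subtype_injective _).monic_map_iff.2 (by rw [hgP]; exact hg.map _))
    (by
      rw [hgPev, nu_iff (pr_eval η g) (aev_mem (P := V.toSubring) hη hgV)]
      exact hηg)
    (by
      intro q hq hqN i
      have hl : q.map (lo (AT E (fun _ : Unit => η) V) (B.map (emb E Unit))).subtype ∈
          lifts (emb E Unit) := by
        rw [lifts_iff_coeff_lifts]
        intro n
        rw [coeff_map]
        obtain ⟨e, -, he⟩ := hback _ (q.coeff n).2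
        exact ⟨e, he⟩
      obtain ⟨q', hq'⟩ := (mem_lifts _).1 hl
      have hc : ∀ n, emb E Unit (q'.coeff n) = (q.coeff n : FF E Unit) := by
        intro n
        rw [← coeff_map, hq', coeff_map]
        rfl
      have hcV : ∀ n, algebraMap E F (q'.coeff n) ∈ V := by
        intro n
        obtain ⟨e, he, he'⟩ := hback _ (q.coeff n).2
        have h10 : e = q'.coeff n := (emb E Unit).injective (by rw [he', hc])
        rw [← h10]
        exact lo_le hB he
      have hdeg : q'.degree < g.degree := by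
        rw [← degree_map_eq_of_injective (emb E Unit).injective q', hq',
          degree_map_eq_of_injective (Subring.subtype_injective _),
          ← degree_map_eq_of_injective (emb E Unit).injective g, ← hgP,
          degree_map_eq_of_injective (Subring.subtype_injective _)]
        exact hq
      have hev : eval₂ (lo (AT E (fun _ : Unit => η) V) (B.map (emb E Unit))).subtype
          (Zc E ()) q = eval (Zc E ()) (q'.map (emb E Unit)) := by
        rw [← eval_map, hq']
      rw [hev, nu_iff (pr_eval η q') (aev_mem (P := V.toSubring) hη hcV)] at hqN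
      rw [← hc, nu_iff (Pr_emb _ _) (hcV i)]
      exact hmin q' hcV hdeg hqN i)
  rw [hgPev] at hR
  have hset : insert (Zc E ()) ((B.map (emb E Unit) : Subring (FF E Unit)) : Set (FF E Unit)) =
      ((B.map (emb E Unit) : Subring (FF E Unit)) : Set (FF E Unit)) ∪
        Set.range (Zc E : Unit → FF E Unit) := by
    rw [Set.range_unique, Set.union_comm]
    rfl
  rw [hset] at hR
  have hRreg : IsRegularLocalRing (RZ B (fun _ : Unit => η) V) := hR.reg
  -- membership
  have hle : lo (AT E (fun _ : Unit => η) V) (B.map (emb E Unit)) ≤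
      RZ B (fun _ : Unit => η) V := lo_mono fun a ha => Subring.subset_closure (Or.inl ha)
  have hZ : Zc E () ∈ RZ B (fun _ : Unit => η) V :=
    le_lo _ _ (Subring.subset_closure (Or.inr ⟨(), rfl⟩))
  have hmem : ∀ q : E[X], (∀ i, q.coeff i ∈ lo (V.comap (algebraMap E F)).toSubring B) →
      eval (Zc E ()) (q.map (emb E Unit)) ∈ RZ B (fun _ : Unit => η) V := fun q hq =>
    ev_mem hZ fun i => by rw [coeff_map]; exact hle (hemb _ (hq i))
  have c4 : ∀ i, (μ - g * h).coeff i ∈ lo (V.comap (algebraMap E F)).toSubring B := by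
    intro i
    rw [coeff_sub, coeff_mul]
    exact Subring.sub_mem _ (c1 i) (Subring.sum_mem _ fun p _ => Subring.mul_mem _ (c2 _) (c3 _))
  let Y : Fin s ⊕ Fin m → RZ B (fun _ : Unit => η) V := fun j =>
    ⟨emb E Unit (Sum.elim x z j), hR.mem (Sum.inl j)⟩
  let M : RZ B (fun _ : Unit => η) V := ⟨_, hmem μ c1⟩
  let G : RZ B (fun _ : Unit => η) V := ⟨_, hmem g c2⟩
  let H : RZ B (fun _ : Unit => η) V := ⟨_, hmem h c3⟩
  let D : RZ B (fun _ : Unit => η) V := ⟨_, hmem (μ - g * h) c4⟩
  have hMGH : M = G * H + D := by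
    apply Subtype.ext
    change eval (Zc E ()) (μ.map (emb E Unit)) = eval (Zc E ()) (g.map (emb E Unit)) *
      eval (Zc E ()) (h.map (emb E Unit)) + eval (Zc E ()) ((μ - g * h).map (emb E Unit))
    rw [Polynomial.map_sub, Polynomial.map_mul, eval_sub, eval_mul]
    ring
  have hspan : Ideal.span (Set.range (Sum.elim Y fun _ : Unit => G)) =
      maximalIdeal (RZ B (fun _ : Unit => η) V) := by
    have h9 := hR.span
    rw [← h9]
    congr 2
    funext j
    rcases j with j | j <;> rfl
  have hDI : D ∈ Ideal.span (Set.range Y) := by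
    refine ev_mem_ideal _ (⟨_, hZ⟩ : RZ B (fun _ : Unit => η) V)
      (p := (μ - g * h).map (emb E Unit)) (fun i => ?_) D rfl
    rw [coeff_map]
    refine ⟨hle (hemb _ (c4 i)), ?_⟩
    have hloc := hF.reg
    have h9 : (⟨emb E Unit ((μ - g * h).coeff i), hemb _ (c4 i)⟩ :
        lo (AT E (fun _ : Unit => η) V) (B.map (emb E Unit))) ∈ maximalIdeal _ := by
      rw [full_mem_max hF]
      change NU _ (emb E Unit ((μ - g * h).coeff i))
      have h10 : algebraMap E F ((μ - g * h).coeff i) ∈ V := lo_le hB (c4 i)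
      rw [nu_iff (Pr_emb (fun _ : Unit => η) ((μ - g * h).coeff i)) h10]
      exact hdV i
    have h10 := hF.span
    rw [← h10] at h9
    have h11 := Ideal.mem_map_of_mem (Subring.inclusion hle) h9
    rw [Ideal.map_span, ← Set.range_comp] at h11
    exact h11
  have hH : IsUnit H := by
    by_contra h9
    have h10 : H ∈ maximalIdeal (RZ B (fun _ : Unit => η) V) := (mem_maximalIdeal _).2 h9
    rw [full_mem_max hR] at h10
    change NU _ (eval (Zc E ()) (h.map (emb E Unit))) at h10
    rw [nu_iff (pr_eval η h) (aev_mem (P := V.toSubring) hη hhV), hηh] at h10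
    exact lt_irrefl _ h10
  have hYm : Ideal.span (Set.range Y) ≤ Ideal.span (Set.range (Sum.elim Y fun _ : Unit => M)) := by
    refine Ideal.span_mono ?_
    rintro _ ⟨j, rfl⟩
    exact ⟨Sum.inl j, rfl⟩
  have hYg : Ideal.span (Set.range Y) ≤ Ideal.span (Set.range (Sum.elim Y fun _ : Unit => G)) := by
    refine Ideal.span_mono ?_
    rintro _ ⟨j, rfl⟩
    exact ⟨Sum.inl j, rfl⟩
  have hspan' : Ideal.span (Set.range (Sum.elim Y fun _ : Unit => M)) =
      maximalIdeal (RZ B (fun _ : Unit => η) V) := by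
    rw [← hspan]
    apply le_antisymm
    · rw [Ideal.span_le]
      rintro _ ⟨j | j, rfl⟩
      · exact Ideal.subset_span ⟨Sum.inl j, rfl⟩
      · change M ∈ _
        rw [hMGH]
        exact Ideal.add_mem _ (Ideal.mul_mem_right _ _ (Ideal.subset_span ⟨Sum.inr (), rfl⟩))
          (hYg hDI)
    · rw [Ideal.span_le]
      rintro _ ⟨j | j, rfl⟩
      · exact Ideal.subset_span ⟨Sum.inl j, rfl⟩
      · change G ∈ _
        refine (Ideal.mul_unit_mem_iff_mem _ hH).1 ?_
        have h9 : G * H = M - D := by rw [hMGH, add_sub_cancel_right]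
        rw [h9]
        exact Ideal.sub_mem _ (Ideal.subset_span ⟨Sum.inr (), rfl⟩) (hYm hDI)
  have hInd : Ind (Sum.elim Y fun _ : Unit => M) := by
    refine ind_of_span hspan' ?_
    rw [hR.dim]
  have hY0 : ∀ j, Sum.elim x z j ≠ 0 := by
    intro j h9
    refine hInd.ne_zero (Sum.inl j) (Subtype.ext ?_)
    change emb E Unit (Sum.elim x z j) = 0
    rw [h9, map_zero]
  have hfin := h7 (fun _ : Unit => η) V B hB hBE (fun _ => hη) Y (fun _ : Unit => M) hInd
    (fun _ => by
      rw [← hημ]
      exact pr_eval η μ) (fun j => algebraMap E F (Sum.elim x z j)) (fun j => Pr_emb _ _)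
    (fun j => (_root_.map_ne_zero _).2 (hY0 j)) (fun w => by
      obtain ⟨f, hf⟩ := hgen w
      refine ⟨aeval (MvPolynomial.X ()) f, 1, ?_, ?_⟩
      · rw [map_one]
        exact one_ne_zero
      · rw [map_one, mul_one, ← hf]
        have h9 := aeval_algHom_apply (MvPolynomial.aeval (fun _ : Unit => η) :
          MvPolynomial Unit E →ₐ[E] F) (MvPolynomial.X ()) f
        rw [MvPolynomial.aeval_X] at h9
        exact h9) (by
      have h9 : IsIntegral E η := ⟨μ, hμ, hημ⟩
      have h10 : Algebra.IsAlgebraic E F := ⟨fun w => by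
        obtain ⟨f, rfl⟩ := hgen w
        rw [aeval_eq_sum_range]
        exact (IsIntegral.sum _ fun i _ => (h9.pow i).smul _).isAlgebraic⟩
      rw [trdeg_eq_zero, zero_add])
  exact regP_restr hfin Sum.inl Sum.inl_injective

end stage

/-- The unramified step. -/
theorem unr (h1 : S_ref.{u}) (h2 : S_fac.{u}) (h3 : S_ind.{u}) (h4 : S_ext.{u}) (h5 : S_map.{u})
    (h6 : S_adj.{u}) (h7 : S_cut.{u}) (h8 : S_alg.{u}) : S_unr.{u} := by
  classical
  intro E F _ _ _ V A hMod hSU η hgen μ g h hu
  obtain ⟨hμ, hg, hμV, hgV, hhV, hdV, hημ, hηg, hηh, hmin⟩ := id hu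
  have hη : η ∈ V := int_mem V η μ hμ hμV hημ
  refine ⟨hη, ?_⟩
  intro G hG hG0
  have key : ∀ g' : F, g' ≠ 0 → ∃ (f : E[X]) (d : E) (q : E[X]), d ≠ 0 ∧
      aeval η f = algebraMap E F d * g' ∧ (∀ i, algebraMap E F (f.coeff i) ∈ V) ∧
      (∀ i, algebraMap E F (q.coeff i) ∈ V) ∧ q.coeff 0 ≠ 0 ∧ aeval (aeval η f) q = 0 := by
    intro g' hg'
    obtain ⟨f, hf⟩ := hgen g'
    obtain ⟨d, hd, hdf⟩ := dens V f
    have h9 : aeval η (C d * f) = algebraMap E F d * g' := by
      rw [map_mul, aeval_C, hf]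
    have h10 : ∀ i, algebraMap E F ((C d * f).coeff i) ∈ V := by
      intro i
      rw [coeff_C_mul]
      exact hdf i
    obtain ⟨q, hq1, hq2, hq3⟩ := cofac V η μ hμ hμV hημ (C d * f) h10 (by
      rw [h9]
      exact mul_ne_zero ((_root_.map_ne_zero _).2 hd) hg')
    exact ⟨C d * f, d, q, hd, h9, h10, hq1, hq2, hq3⟩
  choose! f d q hd hf hfV hqV hq0 hq using key
  let Φ : Set E[X] := {μ, g, h} ∪ (f '' G ∪ ((fun g' => C (d g')) '' G ∪ q '' G))
  have hΦ : Φ.Finite := (Set.toFinite _).union ((hG.image _).union ((hG.image _).union (hG.image _)))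
  let GE : Set E := {e | e ≠ 0 ∧ ∃ p ∈ Φ, e ∈ p.coeffs}
  have hGEf : GE.Finite := by
    refine (hΦ.biUnion fun p _ => p.coeffs.finite_toSet).subset ?_
    rintro e ⟨-, p, hp, he⟩
    exact Set.mem_biUnion hp he
  obtain ⟨TE, s, x, hSt, hx, -, hGE⟩ := h3 (V.comap (algebraMap E F)) A hSU GE hGEf
    fun e he => he.1
  have hcm : ∀ p ∈ Φ, ∀ i, p.coeff i ≠ 0 → PMon (PP (V.comap (algebraMap E F)) A TE) x
      (p.coeff i) ∧ (p.coeff i ∈ V.comap (algebraMap E F) →
        p.coeff i ∈ PP (V.comap (algebraMap E F)) A TE) := fun p hp i h0 =>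
    hGE _ ⟨h0, p, hp, coeff_mem_coeffs h0⟩
  have hcP : ∀ p ∈ Φ, (∀ i, algebraMap E F (p.coeff i) ∈ V) → ∀ i, p.coeff i ∈
      PP (V.comap (algebraMap E F)) A TE := by
    intro p hp hV i
    by_cases h0 : p.coeff i = 0
    · rw [h0]
      exact Subring.zero_mem _
    · exact (hcm p hp i h0).2 (hV i)
  have hBV : Subring.closure ((A : Set E) ∪ TE) ≤ (V.comap (algebraMap E F)).toSubring :=
    (le_lo _ _).trans hSt.reg.PA
  have hS := stage V h4 h5 h6 h7 h8 (Subring.closure ((A : Set E) ∪ TE)) hBV (by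
    intro a
    obtain ⟨b, hb, c, hc, hc0, rfl⟩ := hMod.2 a
    refine ⟨c, Subring.subset_closure (Or.inl hc), hc0, ?_⟩
    rw [mul_assoc, inv_mul_cancel₀ hc0, mul_one]
    exact Subring.subset_closure (Or.inl hb)) η hη hgen μ g h hu x hSt.reg hx
    (hcP μ (Or.inl (Or.inl rfl)) hμV) (hcP g (Or.inl (Or.inr (Or.inl rfl))) hgV)
    (hcP h (Or.inl (Or.inr (Or.inr rfl))) hhV)
  have hcl : Subring.closure (((Subring.closure ((A : Set E) ∪ TE)).map (algebraMap E F) : Set F) ∪
      Set.range (fun _ : Unit => η)) = Subring.closure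
        ((Subring.closure ((A.map (algebraMap E F) : Set F) ∪ {η}) : Set F) ∪
          (algebraMap E F) '' TE) := by
    apply le_antisymm
    · rw [Subring.closure_le]
      rintro w (hw | ⟨_, rfl⟩)
      · have h9 : (Subring.closure ((A : Set E) ∪ TE)).map (algebraMap E F) ≤ Subring.closure
            ((Subring.closure ((A.map (algebraMap E F) : Set F) ∪ {η}) : Set F) ∪
              (algebraMap E F) '' TE) := by
          rw [RingHom.map_closure, Subring.closure_le]
          rintro _ ⟨e, he | he, rfl⟩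
          · exact Subring.subset_closure (Or.inl (Subring.subset_closure (Or.inl ⟨e, he, rfl⟩)))
          · exact Subring.subset_closure (Or.inr ⟨e, he, rfl⟩)
        exact h9 hw
      · exact Subring.subset_closure (Or.inl (Subring.subset_closure (Or.inr rfl)))
    · rw [Subring.closure_le]
      rintro w (hw | ⟨e, he, rfl⟩)
      · have h9 : Subring.closure ((A.map (algebraMap E F) : Set F) ∪ {η}) ≤ Subring.closure
            (((Subring.closure ((A : Set E) ∪ TE)).map (algebraMap E F) : Set F) ∪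
              Set.range (fun _ : Unit => η)) := by
          rw [Subring.closure_le]
          rintro w (⟨e, he, rfl⟩ | hw)
          · exact Subring.subset_closure (Or.inl ⟨e, Subring.subset_closure (Or.inl he), rfl⟩)
          · exact Subring.subset_closure (Or.inr ⟨(), (Set.mem_singleton_iff.1 hw).symm⟩)
        exact h9 hw
      · exact Subring.subset_closure (Or.inl ⟨e, Subring.subset_closure (Or.inr he), rfl⟩)
  rw [hcl] at hS
  -- the constants
  have hPS : ∀ e ∈ PP (V.comap (algebraMap E F)) A TE, algebraMap E F e ∈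
      PP V (Subring.closure ((A.map (algebraMap E F) : Set F) ∪ {η})) ((algebraMap E F) '' TE) := by
    rintro _ ⟨a, ha, b, hb, hb0, hbA, rfl⟩
    have hin : ∀ c ∈ Subring.closure ((A : Set E) ∪ TE), algebraMap E F c ∈ Subring.closure
        ((Subring.closure ((A.map (algebraMap E F) : Set F) ∪ {η}) : Set F) ∪
          (algebraMap E F) '' TE) := by
      intro c hc
      rw [← hcl]
      exact Subring.subset_closure (Or.inl ⟨c, hc, rfl⟩)
    refine ⟨_, hin a ha, _, hin b hb, (_root_.map_ne_zero _).2 hb0, ?_, ?_⟩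
    · rw [← map_inv₀]
      exact hbA
    · rw [map_mul, map_inv₀]
  have hPM : ∀ e, PMon (PP (V.comap (algebraMap E F)) A TE) x e →
      PMon (PP V (Subring.closure ((A.map (algebraMap E F) : Set F) ∪ {η}))
        ((algebraMap E F) '' TE)) (fun i => algebraMap E F (x i)) (algebraMap E F e) := by
    rintro _ ⟨u, u0, u1, u2, δ, rfl⟩
    refine ⟨algebraMap E F u, (_root_.map_ne_zero _).2 u0, hPS _ u1, ?_, δ, ?_⟩
    · rw [← map_inv₀]
      exact hPS _ u2
    · rw [map_mul]
      congr 1
      unfold mo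
      rw [map_prod]
      exact Finset.prod_congr rfl fun i _ => map_zpow₀ _ _ _
  have hηP : η ∈ PP V (Subring.closure ((A.map (algebraMap E F) : Set F) ∪ {η}))
      ((algebraMap E F) '' TE) :=
    le_lo _ _ (Subring.subset_closure (Or.inl (Subring.subset_closure (Or.inr rfl))))
  have hSt' : St V (Subring.closure ((A.map (algebraMap E F) : Set F) ∪ {η}))
      ((algebraMap E F) '' TE) (fun i => algebraMap E F (x i)) := by
    refine ⟨hSt.fin.image _, hS, ?_⟩
    obtain ⟨β, hβ, hβm, hβT, hβx⟩ := hSt.den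
    have hin : ∀ a ∈ A, algebraMap E F a ∈
        Subring.closure ((A.map (algebraMap E F) : Set F) ∪ {η}) := fun a ha =>
      Subring.subset_closure (Or.inl ⟨a, ha, rfl⟩)
    refine ⟨algebraMap E F β, hin _ hβ, hPM _ hβm, ?_, fun i => ?_⟩
    · rintro _ ⟨t, ht, rfl⟩
      rw [← map_mul]
      exact hin _ (hβT t ht)
    · rw [← map_mul]
      exact hin _ (hβx i)
  have hGM : ∀ g' ∈ G, PMon (PP V (Subring.closure ((A.map (algebraMap E F) : Set F) ∪ {η}))
        ((algebraMap E F) '' TE)) (fun i => algebraMap E F (x i)) g' := by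
    intro g' hg'
    have h0 := hG0 g' hg'
    have e1 : f g' ∈ Φ := Or.inr (Or.inl ⟨g', hg', rfl⟩)
    have e2 : C (d g') ∈ Φ := Or.inr (Or.inr (Or.inl ⟨g', hg', rfl⟩))
    have e3 : q g' ∈ Φ := Or.inr (Or.inr (Or.inr ⟨g', hg', rfl⟩))
    have m1 := hPM _ (hcm _ e3 0 (hq0 g' h0)).1
    have m2 := hcm _ e2 0
    rw [coeff_C_zero] at m2
    have m3 := hPM _ (m2 (hd g' h0)).1
    have z1 : aeval η (f g') ∈ PP V (Subring.closure ((A.map (algebraMap E F) : Set F) ∪ {η}))
        ((algebraMap E F) '' TE) :=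
      aev_mem hηP fun i => hPS _ (hcP _ e1 (hfV g' h0) i)
    have z2 : aeval (aeval η (f g')) (divX (q g')) ∈
        PP V (Subring.closure ((A.map (algebraMap E F) : Set F) ∪ {η})) ((algebraMap E F) '' TE) :=
      aev_mem z1 fun i => by
        rw [coeff_divX]
        exact hPS _ (hcP _ e3 (hqV g' h0) _)
    have z3 : aeval η (f g') * aeval (aeval η (f g')) (divX (q g')) =
        (-1) * algebraMap E F ((q g').coeff 0) := by
      have h9 := hq g' h0
      rw [← divX_mul_X_add (q g'), map_add, map_mul, aeval_X, aeval_C] at h9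
      linear_combination h9
    have z4 : PMon (PP V (Subring.closure ((A.map (algebraMap E F) : Set F) ∪ {η}))
        ((algebraMap E F) '' TE)) (fun i => algebraMap E F (x i)) (-1) := by
      refine ⟨-1, neg_ne_zero.2 one_ne_zero, Subring.neg_mem _ (Subring.one_mem _), ?_, 0, ?_⟩
      · rw [inv_neg, inv_one]
        exact Subring.neg_mem _ (Subring.one_mem _)
      · rw [mo_zero, mul_one]
    have z5 := h2 hS _ _ z1 z2 (by
      rw [z3]
      exact z4.mul hS.ne m1)
    rw [hf g' h0] at z5
    have z6 := m3.inv.mul hS.ne z5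
    rwa [inv_mul_cancel_left₀ ((_root_.map_ne_zero _).2 (hd g' h0))] at z6
  obtain ⟨T', x', -, hSt'', -, -, r1, r2⟩ := h1 V _ _ _ hSt' G hG hGM
  exact ⟨T', s, x', hSt'', fun g' hg' => ⟨r1 _ (hGM g' hg'), r2 g' hg'⟩⟩

end Pool.Agent.H624.DT
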